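import Pool.Agent.H55R3.SIS.Main

/-!
# Consistently, square in square with three colours fails at every given successor cardinal

Let `μ` be an infinite cardinal with `2 ^ μ = μ⁺` and let `κ = μ⁺` (for example `κ = ℵ₁` over a
model of the continuum hypothesis). Some notion of forcing preserves all cardinals and the
hypothesis `κ ^ (< κ) = κ`, and adds a function `c : κ⁺ × κ⁺ → μ` which takes all `μ` values on
every product `A × B` of subsets of `κ⁺` of order type `κ + μ`. In particular
`sis(κ⁺, κ + μ, 3)`, and even `sis(κ⁺, κ + μ, 2)`, fails in the extension. So ZFC does not prove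
`sis(κ⁺, < κ⁺, 3)` for all infinite `κ` with `κ ^ (< κ) = κ`.

The forcing relation is the one of `Pool.Agent.Helper669.Forcing`: a sentence is the set of the
conditions which force it; a name for a relation between two ground model sets `X` and `Y` is a map
sending `x`, `y` to a set of conditions, and `meets N` says that the generic filter meets `N`.
-/

set_option autoImplicit false

namespace Pool.Agent.Results.MP_c6cf52_lc.FailsAtSuccessors

open Cardinal Pool.Agent.Helper669.Forcing Pool.Agent.H55R3.SIS

theorem result (μ : Cardinal.{0}) (h0 : ℵ₀ ≤ μ) (h : 2 ^ μ = Order.succ μ) :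
    ∃ (P : Type) (_ : Preorder P), Nonempty P ∧ ∀ p : P,
      p ∈ CardinalsPreserved.{0, 0} P ∧
      p ∈ WeakPower P (Order.succ μ) ∧
      p ∈ AllColoursOnProducts P (Order.succ (Order.succ μ)).ord.ToType
        ((Order.succ μ).ord + μ.ord).ToType μ.ord.ToType ∧
      p ∈ fnot (Sis P (Order.succ (Order.succ μ)).ord.ToType
        ((Order.succ μ).ord + μ.ord).ToType (Fin 3)) ∧
      p ∈ fnot (Sis P (Order.succ (Order.succ μ)).ord.ToType
        ((Order.succ μ).ord + μ.ord).ToType (Fin 2)) := by
  obtain ⟨P, inst, hne, hP⟩ := main h0 h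
  refine ⟨P, inst, hne, fun p => ?_⟩
  obtain ⟨h1, h2, h3⟩ := hP p
  have hs : ∀ n : ℕ, ∃ f : μ.ord.ToType → Fin (n + 2), Function.Surjective f := by
    intro n
    have h4 : #(Fin (n + 2)) ≤ #(μ.ord.ToType) := by
      rw [mk_fin]
      refine ((natCast_lt_aleph0 (n := n + 2)).le.trans h0).trans ?_
      simp
    obtain ⟨j⟩ := h4
    exact ⟨Function.invFun j, Function.invFun_surjective j.injective⟩
  obtain ⟨f2, hf2⟩ := hs 0
  obtain ⟨f3, hf3⟩ := hs 1
  exact ⟨h1, h2, h3, not_sis (allColours_map f3 hf3 h3), not_sis (allColours_map f2 hf2 h3)⟩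

end Pool.Agent.Results.MP_c6cf52_lc.FailsAtSuccessors
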